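import Pool.Agent.H53R2.UB2

/-!
# In groups with a universal identity, a nilpotent lower central term with finite centre is finite
-/

set_option autoImplicit false
set_option linter.unusedSectionVars false

namespace Pool.Agent.T2H17.RFV

open Pool.Agent.H53R2
open scoped commutatorElement

/-- one conjugate -/
theorem comm_conj {H : Type} [Group H] {N Y R : Subgroup H} [R.Normal]
    (hR : ⁅⁅Y, N⁆, N⁆ ≤ R) {y w ν : H} (hy : y ∈ Y) (hw : w ∈ N) (hν : ν ∈ N) (h : ⁅y, w⁆ ∈ R) :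
    ⁅y, ν * w * ν⁻¹⁆ ∈ R := by
  have hRn : R.Normal := inferInstance
  have h3 := K_three hR
  have h1 : ⁅y, ⁅ν, w⁆⁆ ∈ R :=
    h3 (Subgroup.commutator_mem_commutator hy (Subgroup.commutator_mem_commutator hν hw))
  have e : ⁅y, ν * w * ν⁻¹⁆ = ⁅y, ⁅ν, w⁆⁆ * (⁅ν, w⁆ * ⁅y, w⁆ * ⁅ν, w⁆⁻¹) := by
    simp only [commutatorElement_def]; group
  rw [e]
  exact R.mul_mem h1 (hRn.conj_mem _ h _)

theorem fin_of_center (u : UI) (H : Type) [Group H] [Group.FG H] (hH : u.Grp H) (m : ℕ)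
    (hnil : Group.IsNilpotent ↥(Lw (⊤ : Subgroup H) m ⊤))
    (hfin : Finite (Subgroup.center ↥(Lw (⊤ : Subgroup H) m ⊤))) :
    Finite ↥(Lw (⊤ : Subgroup H) m ⊤) := by
  classical
  set N : Subgroup H := Lw (⊤ : Subgroup H) m ⊤ with hN
  have hNn : N.Normal := by rw [hN]; infer_instance
  let p : H →* H ⧸ N := QuotientGroup.mk' N
  have hp : Function.Surjective p := QuotientGroup.mk'_surjective N
  have hker : p.ker = N := QuotientGroup.ker_mk' N
  have hnilQ : Group.IsNilpotent (H ⧸ N) := by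
    apply E_nilp m
    have h1 := map_Lw p (⊤ : Subgroup H) m ⊤
    rw [Subgroup.map_top_of_surjective _ hp, ← hN] at h1
    rw [← h1, eq_bot_iff]
    rintro _ ⟨x, hx, rfl⟩
    exact (QuotientGroup.eq_one_iff x).2 hx
  obtain ⟨r, t', ht'⟩ := nil_bddGen (H ⧸ N)
  choose t ht using fun i => hp (t' i)
  have hgen : ∀ g : H, ∃ k : Fin r → ℤ, ∃ ν ∈ N, g = ν * (List.ofFn fun i => t i ^ k i).prod := by
    intro g
    obtain ⟨k, hk⟩ := ht' (p g)
    refine ⟨k, g * ((List.ofFn fun i => t i ^ k i).prod)⁻¹, ?_, by group⟩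
    rw [← hker, MonoidHom.mem_ker, map_mul, map_inv, map_list_prod, List.map_ofFn]
    have : (⇑p ∘ fun i => t i ^ k i) = fun i => t' i ^ k i := by
      ext i; simp [ht]
    rw [this, ← hk, mul_inv_cancel]
  obtain ⟨K, hK⟩ := U_multi u
  obtain ⟨S₀, hS₀⟩ := K_nfg (G := H) m
  rw [← hN] at hS₀
  have hS₀N : ∀ x ∈ S₀, x ∈ N := fun x hx => by
    rw [hS₀]; exact Subgroup.subset_normalClosure hx
  -- the upper central series of `N`
  let Y : ℕ → Subgroup H := fun i => (Subgroup.upperCentralSeries ↥N i).map N.subtype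
  have hYn : ∀ i, (Y i).Normal := fun i => inferInstance
  have hYN : ∀ i, Y i ≤ N := by
    rintro i _ ⟨x, _, rfl⟩
    exact x.2
  have hYc : ∀ i, ⁅Y (i + 1), N⁆ ≤ Y i := by
    intro i
    have h1 := Subgroup.map_mono (f := N.subtype) (Subgroup.commutator_upperCentralSeries_top_le ↥N i)
    rw [Subgroup.map_commutator, ← MonoidHom.range_eq_map, Subgroup.range_subtype] at h1
    exact h1
  have hYmem : ∀ i (y : ↥N), (y : H) ∈ Y i ↔ y ∈ Subgroup.upperCentralSeries ↥N i := by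
    intro i y
    constructor
    · rintro ⟨x, hx, hxy⟩
      rwa [← Subtype.ext hxy]
    · intro h
      exact ⟨y, h, rfl⟩
  have hkey : ∀ i, ∀ y ∈ Y (i + 2),
      (∀ x ∈ S₀, ∀ k : Fin r → ℤ, (∀ j, k j ∈ K) → ⁅y, (List.ofFn fun i => t i ^ k i).prod * x *
        ((List.ofFn fun i => t i ^ k i).prod)⁻¹⁆ ∈ Y i) → ∀ x ∈ N, ⁅y, x⁆ ∈ Y i := by
    intro i y hy h
    have hR : ⁅⁅Y (i + 2), N⁆, N⁆ ≤ Y i :=
      (Subgroup.commutator_mono (hYc (i + 1)) le_rfl).trans (hYc i)
    have h1 : ∀ x ∈ S₀, ∀ g : H, ⁅y, g * x * g⁻¹⁆ ∈ Y i := by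
      intro x hx g
      obtain ⟨k, ν, hν, rfl⟩ := hgen g
      have h2 := hK r H hH N (Y (i + 2)) (Y i) (hYN _) hR y hy x (hS₀N x hx) t (h x hx) k
      have h3 := comm_conj hR hy (hNn.conj_mem x (hS₀N x hx) _) hν h2
      have e : ν * ((List.ofFn fun i => t i ^ k i).prod * x *
        ((List.ofFn fun i => t i ^ k i).prod)⁻¹) * ν⁻¹ =
        ν * (List.ofFn fun i => t i ^ k i).prod * x *
          (ν * (List.ofFn fun i => t i ^ k i).prod)⁻¹ := by group
      rw [e] at h3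
      exact h3
    intro x hx
    rw [hS₀] at hx
    unfold Subgroup.normalClosure at hx
    induction hx using Subgroup.closure_induction with
    | mem x hx =>
      obtain ⟨s, hs, hc⟩ := Group.mem_conjugatesOfSet_iff.1 hx
      obtain ⟨g, rfl⟩ := isConj_iff.1 hc
      exact h1 s hs g
    | one =>
      rw [commutatorElement_one_right]
      exact (Y i).one_mem
    | mul a b _ _ ha hb =>
      have e : ⁅y, a * b⁆ = ⁅y, a⁆ * (a * ⁅y, b⁆ * a⁻¹) := by
        simp only [commutatorElement_def]; group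
      rw [e]
      exact (Y i).mul_mem ha ((hYn i).conj_mem _ hb _)
    | inv a _ ha =>
      have e : ⁅y, a⁻¹⁆ = a⁻¹ * ⁅y, a⁆⁻¹ * (a⁻¹)⁻¹ := by
        simp only [commutatorElement_def]; group
      rw [e]
      exact (hYn i).conj_mem _ ((Y i).inv_mem ha) _
  have hall : ∀ i, Finite (Subgroup.upperCentralSeries ↥N (i + 1)) := by
    intro i
    induction i with
    | zero =>
      rw [zero_add, Subgroup.upperCentralSeries_one]
      exact hfin
    | succ i ih =>
      let w : S₀ × (Fintype.piFinset fun _ : Fin r => K) → ↥N := fun q =>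
        ⟨(List.ofFn fun j => t j ^ (q.2 : Fin r → ℤ) j).prod * q.1 *
          ((List.ofFn fun j => t j ^ (q.2 : Fin r → ℤ) j).prod)⁻¹,
          hNn.conj_mem _ (hS₀N _ q.1.2) _⟩
      let Ψ : ↥(Subgroup.upperCentralSeries ↥N (i + 1 + 1)) →
          (S₀ × (Fintype.piFinset fun _ : Fin r => K) → ↥(Subgroup.upperCentralSeries ↥N (i + 1))) :=
        fun y q => ⟨⁅(y : ↥N), w q⁆, Subgroup.mem_upperCentralSeries_succ_iff.1 y.2 (w q)⟩
      have hΨ : ∀ y y', Ψ y = Ψ y' → ((y'⁻¹ * y : ↥(Subgroup.upperCentralSeries ↥N (i + 1 + 1))) : ↥N) ∈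
          Subgroup.upperCentralSeries ↥N (i + 1) := by
        intro y y' h
        rw [← hYmem]
        have h5 : ∀ x ∈ N, ⁅(((y'⁻¹ * y : ↥(Subgroup.upperCentralSeries ↥N (i + 1 + 1))) : ↥N) : H), x⁆ ∈
            Y i := by
          apply hkey i _ ((hYmem (i + 2) _).2 (y'⁻¹ * y).2)
          intro x hx k hk
          let q : S₀ × (Fintype.piFinset fun _ : Fin r => K) :=
            (⟨x, hx⟩, ⟨k, Fintype.mem_piFinset.2 hk⟩)
          have h1 : ⁅(y : ↥N), w q⁆ = ⁅(y' : ↥N), w q⁆ :=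
            congrArg Subtype.val (congrFun h q)
          have h2 : ⁅(((y'⁻¹ * y : ↥(Subgroup.upperCentralSeries ↥N (i + 1 + 1))) : ↥N)), w q⁆ = 1 := by
            rw [commutatorElement_def, commutatorElement_def] at h1
            have h3 : (y : ↥N) * w q * (y : ↥N)⁻¹ = y' * w q * (y' : ↥N)⁻¹ := mul_right_cancel h1
            rw [commutatorElement_def]
            change ((y' : ↥N)⁻¹ * y) * w q * ((y' : ↥N)⁻¹ * y)⁻¹ * (w q)⁻¹ = 1
            have e : ((y' : ↥N)⁻¹ * y) * w q * ((y' : ↥N)⁻¹ * y)⁻¹ * (w q)⁻¹ =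
                (y' : ↥N)⁻¹ * (y * w q * (y : ↥N)⁻¹) * y' * (w q)⁻¹ := by group
            rw [e, h3]
            group
          have h4 := congrArg Subtype.val h2
          have h6 : ((⁅(((y'⁻¹ * y : ↥(Subgroup.upperCentralSeries ↥N (i + 1 + 1))) : ↥N)), w q⁆ : ↥N) : H) =
            ⁅(((y'⁻¹ * y : ↥(Subgroup.upperCentralSeries ↥N (i + 1 + 1))) : ↥N) : H), (w q : H)⁆ := rfl
          rw [h6] at h4
          change ⁅(((y'⁻¹ * y : ↥(Subgroup.upperCentralSeries ↥N (i + 1 + 1))) : ↥N) : H), (w q : H)⁆ ∈ Y i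
          rw [h4]
          exact (Y i).one_mem
        rw [hYmem]
        rw [Subgroup.mem_upperCentralSeries_succ_iff]
        intro x
        rw [← hYmem]
        exact h5 x x.2
      have hfin' : (Set.univ : Set ↥(Subgroup.upperCentralSeries ↥N (i + 1 + 1))).Finite := by
        refine Set.Finite.of_finite_fibers Ψ (Set.toFinite _) ?_
        rintro _ ⟨y₀, _, rfl⟩
        have himg : (Set.range fun z : ↥(Subgroup.upperCentralSeries ↥N (i + 1)) =>
            (y₀ : ↥N) * (z : ↥N)).Finite := Set.finite_range _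
        refine Set.Finite.of_finite_image (f := Subtype.val) (himg.subset ?_)
          (Subtype.val_injective.injOn)
        rintro _ ⟨y, ⟨_, hy⟩, rfl⟩
        refine ⟨⟨_, hΨ y y₀ hy⟩, ?_⟩
        change (y₀ : ↥N) * ((y₀ : ↥N)⁻¹ * y) = y
        rw [mul_inv_cancel_left]
      exact Set.finite_univ_iff.1 hfin'
  obtain ⟨c, hc⟩ := hnil.nilpotent'
  have h1 : Subgroup.upperCentralSeries ↥N (c + 1) = ⊤ := by
    rw [eq_top_iff, ← hc]
    exact Subgroup.upperCentralSeries_mono ↥N (Nat.le_succ c)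
  have h2 := hall c
  rw [h1] at h2
  exact Finite.of_equiv _ (Subgroup.topEquiv (G := ↥N)).toEquiv

end Pool.Agent.T2H17.RFV
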