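import Pool.Agent.T2H17.RFV.Noe

/-!
# Generic freeness (in the form of a separation property)

`Gd l q N B`: away from `l`, the section `N / (N ∩ B)` is `q`-torsion-free and `q`-adically
separated.
-/

set_option autoImplicit false
set_option linter.unusedSectionVars false

namespace Pool.Agent.T2H17.RFV

open Pool.Agent.Helper294.HallC

section basic

variable {J A : Type} [CommRing J] [AddCommGroup A] [Module J A]

/-- away from `l`, the section `N / (N ∩ B)` is `q`-torsion-free and `q`-adically separated. -/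
def Gd (l q : J) (N B : Submodule J A) : Prop :=
  (∀ a ∈ N, q • a ∈ B → ∃ n : ℕ, l ^ n • a ∈ B) ∧
  (∀ a ∈ N, (∀ k : ℕ, ∃ b ∈ N, a - q ^ k • b ∈ B) → ∃ n : ℕ, l ^ n • a ∈ B)

theorem Gd.anti {l q : J} {N N' B : Submodule J A} (h : Gd l q N' B) (hN : N ≤ N') :
    Gd l q N B :=
  ⟨fun a ha h1 => h.1 a (hN ha) h1, fun a ha h1 => h.2 a (hN ha) fun k => by
    obtain ⟨b, hb, h2⟩ := h1 k
    exact ⟨b, hN hb, h2⟩⟩

theorem Gd.mono {l l' q : J} {N B : Submodule J A} (h : Gd l q N B) (hl : l ∣ l') :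
    Gd l' q N B := by
  obtain ⟨c, rfl⟩ := hl
  refine ⟨fun a ha h1 => ?_, fun a ha h1 => ?_⟩
  · obtain ⟨n, hn⟩ := h.1 a ha h1
    refine ⟨n, ?_⟩
    rw [mul_pow, mul_comm, mul_smul]
    exact B.smul_mem _ hn
  · obtain ⟨n, hn⟩ := h.2 a ha h1
    refine ⟨n, ?_⟩
    rw [mul_pow, mul_comm, mul_smul]
    exact B.smul_mem _ hn

theorem Gd.of_inf {l q : J} {N B : Submodule J A} (h : Gd l q N (N ⊓ B)) : Gd l q N B := by
  refine ⟨fun a ha h1 => ?_, fun a ha h1 => ?_⟩
  · obtain ⟨n, hn⟩ := h.1 a ha ⟨N.smul_mem _ ha, h1⟩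
    exact ⟨n, hn.2⟩
  · obtain ⟨n, hn⟩ := h.2 a ha fun k => by
      obtain ⟨b, hb, h2⟩ := h1 k
      exact ⟨b, hb, N.sub_mem ha (N.smul_mem _ hb), h2⟩
    exact ⟨n, hn.2⟩

theorem Gd.inf {l q : J} {N B : Submodule J A} (h : Gd l q N B) : Gd l q N (N ⊓ B) := by
  refine ⟨fun a ha h1 => ?_, fun a ha h1 => ?_⟩
  · obtain ⟨n, hn⟩ := h.1 a ha h1.2
    exact ⟨n, N.smul_mem _ ha, hn⟩
  · obtain ⟨n, hn⟩ := h.2 a ha fun k => by
      obtain ⟨b, hb, h2⟩ := h1 k
      exact ⟨b, hb, h2.2⟩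
    exact ⟨n, N.smul_mem _ ha, hn⟩

theorem Gd.sup {l q : J} {N B : Submodule J A} (h : Gd l q N B) : Gd l q (B ⊔ N) B := by
  refine ⟨fun a ha h1 => ?_, fun a ha h1 => ?_⟩
  · obtain ⟨y, hy, z, hz, rfl⟩ := Submodule.mem_sup.1 ha
    rw [smul_add] at h1
    obtain ⟨n, hn⟩ := h.1 z hz ((B.add_mem_iff_right (B.smul_mem _ hy)).1 h1)
    refine ⟨n, ?_⟩
    rw [smul_add]
    exact B.add_mem (B.smul_mem _ hy) hn
  · obtain ⟨y, hy, z, hz, rfl⟩ := Submodule.mem_sup.1 ha
    obtain ⟨n, hn⟩ := h.2 z hz fun k => by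
      obtain ⟨b, hb, h2⟩ := h1 k
      obtain ⟨y', hy', z', hz', rfl⟩ := Submodule.mem_sup.1 hb
      refine ⟨z', hz', ?_⟩
      have e : z - q ^ k • z' = (y + z - q ^ k • (y' + z')) - y + q ^ k • y' := by
        rw [smul_add]; abel
      rw [e]
      exact B.add_mem (B.sub_mem h2 hy) (B.smul_mem _ hy')
    refine ⟨n, ?_⟩
    rw [smul_add]
    exact B.add_mem (B.smul_mem _ hy) hn

/-- ascending unions -/
theorem Gd.chain {l q : J} (hlq : IsCoprime q l) (M : ℕ → Submodule J A) (hM : Monotone M)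
    (h : ∀ n, Gd l q (M (n + 1)) (M n)) : Gd l q (⨆ n, M n) (M 0) := by
  have hmem : ∀ x, x ∈ ⨆ n, M n ↔ ∃ n, x ∈ M n := fun x =>
    Submodule.mem_iSup_of_directed M hM.directed_le
  -- torsion
  have hA : ∀ j i : ℕ, ∀ a ∈ M (i + j), q • a ∈ M i → ∃ n : ℕ, l ^ n • a ∈ M i := by
    intro j
    induction j with
    | zero => intro i a ha _; exact ⟨0, by rw [pow_zero, one_smul]; exact ha⟩
    | succ j ih =>
      intro i a ha h1
      obtain ⟨n, hn⟩ := (h (i + j)).1 a ha (hM (Nat.le_add_right i j) h1)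
      obtain ⟨m, hm⟩ := ih i (l ^ n • a) hn (by
        rw [smul_comm]; exact (M i).smul_mem _ h1)
      refine ⟨m + n, ?_⟩
      rw [pow_add, mul_smul]
      exact hm
  have hB : ∀ k i j : ℕ, ∀ a ∈ M (i + j), q ^ k • a ∈ M i → ∃ n : ℕ, l ^ n • a ∈ M i := by
    intro k
    induction k with
    | zero =>
      intro i j a _ h1
      rw [pow_zero, one_smul] at h1
      exact ⟨0, by rw [pow_zero, one_smul]; exact h1⟩
    | succ k ih =>
      intro i j a ha h1
      rw [pow_succ', mul_smul] at h1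
      obtain ⟨n, hn⟩ := hA j i _ ((M (i + j)).smul_mem _ ha) h1
      rw [smul_comm] at hn
      obtain ⟨m, hm⟩ := ih i j (l ^ n • a) ((M (i + j)).smul_mem _ ha) hn
      refine ⟨m + n, ?_⟩
      rw [pow_add, mul_smul]
      exact hm
  have hB' : ∀ k i : ℕ, ∀ a ∈ ⨆ n, M n, q ^ k • a ∈ M i → ∃ n : ℕ, l ^ n • a ∈ M i := by
    intro k i a ha h1
    obtain ⟨j, hj⟩ := (hmem a).1 ha
    exact hB k i j a (hM (Nat.le_add_left j i) hj) h1
  refine ⟨fun a ha h1 => ?_, fun a ha h1 => ?_⟩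
  · exact hB' 1 0 a ha (by rw [pow_one]; exact h1)
  · obtain ⟨j, hj⟩ := (hmem a).1 ha
    -- descend
    have key : ∀ i : ℕ, ∀ a : A, a ∈ M i → (∀ k : ℕ, ∃ b ∈ ⨆ n, M n, a - q ^ k • b ∈ M 0) →
        ∃ n : ℕ, l ^ n • a ∈ M 0 := by
      intro i
      induction i with
      | zero => intro a ha _; exact ⟨0, by rw [pow_zero, one_smul]; exact ha⟩
      | succ i ih =>
        intro a ha h1
        have h3 : ∃ n : ℕ, l ^ n • a ∈ M i := by
          refine (h i).2 a ha fun k => ?_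
          obtain ⟨b, hb, h2⟩ := h1 k
          have h4 : q ^ k • b ∈ M (i + 1) := by
            have e : q ^ k • b = a - (a - q ^ k • b) := by abel
            rw [e]
            exact (M (i + 1)).sub_mem ha (hM (Nat.zero_le _) h2)
          obtain ⟨m, hm⟩ := hB' k (i + 1) b hb h4
          obtain ⟨α, β, hαβ⟩ := hlq.pow (m := k) (n := m)
          refine ⟨α • a + β • (l ^ m • b), (M (i + 1)).add_mem ((M (i + 1)).smul_mem _ ha)
            ((M (i + 1)).smul_mem _ hm), ?_⟩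
          have e : a - q ^ k • (α • a + β • (l ^ m • b)) = (β * l ^ m) • (a - q ^ k • b) := by
            have e1 : a = (α * q ^ k + β * l ^ m) • a := by rw [hαβ, one_smul]
            have e2 : (α * q ^ k + β * l ^ m) • a - q ^ k • (α • a + β • (l ^ m • b)) =
                (β * l ^ m) • (a - q ^ k • b) := by
              simp only [smul_add, smul_sub, add_smul, smul_smul]
              have e3 : α * q ^ k = q ^ k * α := mul_comm _ _
              have e4 : q ^ k * (β * l ^ m) = β * l ^ m * q ^ k := mul_comm _ _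
              rw [e3, e4]
              abel
            rw [← e2, ← e1]
          rw [e]
          exact (M i).smul_mem _ (hM (Nat.zero_le _) h2)
        obtain ⟨n, hn⟩ := h3
        obtain ⟨m, hm⟩ := ih (l ^ n • a) hn fun k => by
          obtain ⟨b, hb, h2⟩ := h1 k
          refine ⟨l ^ n • b, Submodule.smul_mem _ _ hb, ?_⟩
          have e : l ^ n • a - q ^ k • (l ^ n • b) = l ^ n • (a - q ^ k • b) := by
            rw [smul_sub, smul_comm]
          rw [e]
          exact (M 0).smul_mem _ h2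
        refine ⟨m + n, ?_⟩
        rw [pow_add, mul_smul]
        exact hm
    exact key j a hj h1

theorem Gd.trans {l q : J} (hlq : IsCoprime q l) {B M C : Submodule J A} (h1 : B ≤ M) (h2 : M ≤ C)
    (hM : Gd l q M B) (hC : Gd l q C M) : Gd l q C B := by
  let f : ℕ → Submodule J A := fun n => if n = 0 then B else if n = 1 then M else C
  have hf : Monotone f := by
    refine monotone_nat_of_le_succ fun n => ?_
    rcases n with _ | _ | n
    · simpa [f] using h1
    · simpa [f] using h2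
    · simp [f]
  have h := Gd.chain hlq f hf (by
    intro n
    rcases n with _ | _ | n
    · simpa [f] using hM
    · simpa [f] using hC
    · have e1 : f (n + 1 + 1 + 1) = C := by simp [f]
      have e2 : f (n + 1 + 1) = C := by simp [f]
      rw [e1, e2]
      exact ⟨fun a ha _ => ⟨0, by rw [pow_zero, one_smul]; exact ha⟩,
        fun a ha _ => ⟨0, by rw [pow_zero, one_smul]; exact ha⟩⟩)
  have e0 : f 0 = B := by simp [f]
  rw [e0] at h
  refine h.anti ?_
  have e2 : f 2 = C := by simp [f]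
  rw [← e2]
  exact le_iSup f 2

/-- finitely generated modules over a Noetherian domain -/
theorem fg_base (J E : Type) [CommRing J] [IsDomain J] [IsNoetherianRing J] [AddCommGroup E]
    [Module J E] [Module.Finite J E] :
    ∃ l : J, l ≠ 0 ∧ (∀ (q : J) (e : E), q ≠ 0 → q • e = 0 → l • e = 0) ∧
      ∀ (q : J) (e : E), ¬ IsUnit q → (∀ k : ℕ, ∃ b : E, e = q ^ k • b) → l • e = 0 := by
  have hfin : Module.Finite J (Submodule.torsion J E) := inferInstance
  obtain ⟨l, hl1, hl2⟩ := Submodule.annihilator_top_inter_nonZeroDivisors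
    (M := Submodule.torsion J E) (Submodule.torsion_isTorsion)
  have hl : ∀ e ∈ Submodule.torsion J E, l • e = 0 := by
    intro e he
    have h1 := Submodule.mem_annihilator.1 hl1 ⟨e, he⟩ Submodule.mem_top
    exact congrArg Subtype.val h1
  refine ⟨l, nonZeroDivisors.ne_zero hl2, ?_, ?_⟩
  · intro q e hq h
    apply hl
    exact ⟨⟨q, mem_nonZeroDivisors_of_ne_zero hq⟩, h⟩
  · intro q e hq h
    apply hl
    have hI : (Ideal.span {q} : Ideal J) ≠ ⊤ := by
      rw [Ne, Ideal.span_singleton_eq_top]; exact hq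
    have h1 := Ideal.iInf_pow_smul_eq_bot_of_isTorsionFree
      (M := E ⧸ Submodule.torsion J E) (Ideal.span {q}) hI
    have h2 : (Submodule.torsion J E).mkQ e ∈
        (⨅ i : ℕ, (Ideal.span {q}) ^ i • (⊤ : Submodule J (E ⧸ Submodule.torsion J E))) := by
      rw [Submodule.mem_iInf]
      intro k
      obtain ⟨b, hb⟩ := h k
      rw [hb, map_smul, Ideal.span_singleton_pow]
      exact Submodule.smul_mem_smul (Ideal.mem_span_singleton_self _) Submodule.mem_top
    rw [h1, Submodule.mem_bot, Submodule.mkQ_apply, Submodule.Quotient.mk_eq_zero] at h2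
    exact h2

theorem Gd_fg [IsDomain J] [IsNoetherianRing J] (N B : Submodule J A) (hN : N.FG) :
    ∃ l : J, l ≠ 0 ∧ ∀ q : J, q ≠ 0 → ¬ IsUnit q → Gd l q N B := by
  have hfin : Module.Finite J ↥(N.map B.mkQ) := Module.Finite.iff_fg.2 (hN.map _)
  obtain ⟨l, hl0, hl1, hl2⟩ := fg_base J ↥(N.map B.mkQ)
  have hz : ∀ (a : A) (ha : a ∈ N), l • (⟨B.mkQ a, ⟨a, ha, rfl⟩⟩ : ↥(N.map B.mkQ)) = 0 →
      l • a ∈ B := by
    intro a ha h
    have h1 : l • B.mkQ a = 0 := congrArg Subtype.val h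
    rw [← map_smul, Submodule.mkQ_apply, Submodule.Quotient.mk_eq_zero] at h1
    exact h1
  refine ⟨l, hl0, fun q hq0 hq => ⟨fun a ha h => ⟨1, ?_⟩, fun a ha h => ⟨1, ?_⟩⟩⟩
  · rw [pow_one]
    apply hz a ha
    apply hl1 q _ hq0
    apply Subtype.ext
    change q • B.mkQ a = 0
    rw [← map_smul, Submodule.mkQ_apply, Submodule.Quotient.mk_eq_zero]
    exact h
  · rw [pow_one]
    apply hz a ha
    apply hl2 q _ hq
    intro k
    obtain ⟨b, hb, h1⟩ := h k
    refine ⟨⟨B.mkQ b, ⟨b, hb, rfl⟩⟩, ?_⟩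
    apply Subtype.ext
    change B.mkQ a = q ^ k • B.mkQ b
    rw [← map_smul, ← sub_eq_zero, ← map_sub, Submodule.mkQ_apply, Submodule.Quotient.mk_eq_zero]
    exact h1

end basic

section action

variable {J Γ A : Type} [CommRing J] [Group Γ] [AddCommGroup A] [Module J A]
  [DistribMulAction Γ A] [SMulCommClass Γ J A]

/-- the translate `g N` -/
def tr (g : Γ) (N : Submodule J A) : Submodule J A where
  carrier := {a | g⁻¹ • a ∈ N}
  zero_mem' := by
    change g⁻¹ • (0 : A) ∈ N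
    rw [smul_zero]; exact N.zero_mem
  add_mem' := by
    intro a b ha hb
    change g⁻¹ • (a + b) ∈ N
    rw [smul_add]; exact N.add_mem ha hb
  smul_mem' := by
    intro c a ha
    change g⁻¹ • (c • a) ∈ N
    rw [smul_comm]; exact N.smul_mem c ha

theorem mem_tr {g : Γ} {N : Submodule J A} {a : A} : a ∈ tr g N ↔ g⁻¹ • a ∈ N := Iff.rfl

theorem Gd.tr {l q : J} {N B : Submodule J A} (h : Gd l q N B) (g : Γ) :
    Gd l q (tr g N) (tr g B) := by
  refine ⟨fun a ha h1 => ?_, fun a ha h1 => ?_⟩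
  · rw [mem_tr, smul_comm] at h1
    obtain ⟨n, hn⟩ := h.1 (g⁻¹ • a) ha h1
    refine ⟨n, ?_⟩
    rw [mem_tr, smul_comm]
    exact hn
  · obtain ⟨n, hn⟩ := h.2 (g⁻¹ • a) ha fun k => by
      obtain ⟨b, hb, h2⟩ := h1 k
      refine ⟨g⁻¹ • b, hb, ?_⟩
      rw [mem_tr, smul_sub, smul_comm g⁻¹ (q ^ k) b] at h2
      exact h2
    refine ⟨n, ?_⟩
    rw [mem_tr, smul_comm]
    exact hn

/-- generic freeness for the submodule generated by `S` over the subgroup `R`. -/
def GF (J : Type) {Γ A : Type} [CommRing J] [Group Γ] [AddCommGroup A] [Module J A]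
    [DistribMulAction Γ A] (R : Subgroup Γ) (S : Set A) : Prop :=
  ∀ B : Submodule J A, (∀ g ∈ R, ∀ x ∈ B, g • x ∈ B) →
    ∃ l : J, l ≠ 0 ∧ ∀ q : J, q ≠ 0 → ¬ IsUnit q → IsCoprime q l → Gd l q (sp J R S) B

theorem nS_succ_le (t : Γ) (M : Submodule J A) (B : Submodule J A) (n : ℕ) :
    B ⊔ nS t M (n + 1) ≤ (B ⊔ nS t M n) ⊔ tr (t ^ n) M := by
  refine sup_le (le_sup_left.trans le_sup_left) ?_
  intro z hz
  obtain ⟨m, hm, s, hs, rfl⟩ := nS_succ t M n z hz
  refine Submodule.add_mem _ (Submodule.mem_sup_right ?_)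
    (Submodule.mem_sup_left (Submodule.mem_sup_right hs))
  rw [mem_tr, inv_smul_smul]
  exact hm

theorem gf_step [IsDomain J] (S : Set A)
    (R P : Subgroup Γ) (t : Γ) (hRP : R ≤ P) (ht : t ∈ P) (hn : ∀ x, x ∈ R ↔ t * x * t⁻¹ ∈ R)
    (hc : ∀ x ∈ P, ∃ k : ℤ, t ^ (-k) * x ∈ R) (hN : NoeJ J R (sp J R S)) (hR : GF J R S) :
    GF J P S := by
  intro B hB
  set N : Submodule J A := sp J R S with hNdef
  have hNst : ∀ g ∈ R, ∀ x ∈ N, g • x ∈ N := sp_stable R S
  have hBt : ∀ k : ℕ, ∀ x ∈ B, t ^ k • x ∈ B := fun k x hx => hB _ (P.pow_mem ht k) x hx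
  -- first chain
  let M : ℕ → Submodule J A := fun n => B ⊔ nS t N n
  have hMmono : Monotone M := fun a b hab => sup_le_sup_left (nS_mono t N hab) _
  have hM0 : M 0 = B := by
    apply le_antisymm
    · refine sup_le le_rfl ?_
      intro z hz
      rw [nS_zero t N z hz]
      exact B.zero_mem
    · exact le_sup_left
  have hMR : ∀ n, ∀ g ∈ R, ∀ x ∈ M n, g • x ∈ M n := by
    intro n g hg x hx
    obtain ⟨y, hy, z, hz, rfl⟩ := Submodule.mem_sup.1 hx
    rw [smul_add]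
    exact Submodule.add_mem _ (Submodule.mem_sup_left (hB g (hRP hg) y hy))
      (Submodule.mem_sup_right (nS_R hn hNst n g hg z hz))
  have hMt : ∀ n, ∀ x ∈ M n, t • x ∈ M (n + 1) := by
    intro n x hx
    obtain ⟨y, hy, z, hz, rfl⟩ := Submodule.mem_sup.1 hx
    rw [smul_add]
    exact Submodule.add_mem _ (Submodule.mem_sup_left (hB t ht y hy))
      (Submodule.mem_sup_right (nS_t t N n z hz))
  have hMtk : ∀ k n, ∀ x ∈ M n, t ^ k • x ∈ M (n + k) := by
    intro k
    induction k with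
    | zero => intro n x hx; simpa using hx
    | succ k ih =>
      intro n x hx
      rw [pow_succ', mul_smul]
      exact hMt _ _ (ih n x hx)
  let K : ℕ → Submodule J A := fun n => tr (t ^ n)⁻¹ (M n)
  have memK : ∀ n x, x ∈ K n ↔ t ^ n • x ∈ M n := by
    intro n x
    change ((t ^ n)⁻¹)⁻¹ • x ∈ M n ↔ _
    rw [inv_inv]
  have hKR : ∀ n, ∀ g ∈ R, ∀ x ∈ K n, g • x ∈ K n := by
    intro n g hg x hx
    rw [memK] at hx ⊢
    have h1 := hMR n _ ((nconj hn n g).1 hg) _ hx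
    have e : (t ^ n * g * (t ^ n)⁻¹) • (t ^ n • x) = t ^ n • (g • x) := by
      rw [← mul_smul, ← mul_smul]
      congr 1
      group
    rw [e] at h1
    exact h1
  have hKmono : Monotone K := by
    refine monotone_nat_of_le_succ fun n x hx => ?_
    rw [memK] at hx ⊢
    rw [pow_succ', mul_smul]
    exact hMt _ _ hx
  obtain ⟨n₀, hn₀⟩ := hN (fun n => N ⊓ K n) (fun a b hab => inf_le_inf_left _ (hKmono hab))
    (fun n => ⟨inf_le_left, fun g hg x hx => ⟨hNst g hg x hx.1, hKR n g hg x hx.2⟩⟩)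
  choose lf hl0 hl using fun n => hR (K n) (hKR n)
  -- second chain
  let Mi : Submodule J A := ⨆ n, M n
  have hMi : ∀ x, x ∈ Mi ↔ ∃ n, x ∈ M n := fun x =>
    Submodule.mem_iSup_of_directed M hMmono.directed_le
  have hMiR : ∀ g ∈ R, ∀ x ∈ Mi, g • x ∈ Mi := by
    intro g hg x hx
    rw [hMi] at hx ⊢
    obtain ⟨n, hx⟩ := hx
    exact ⟨n, hMR n g hg x hx⟩
  have hMitk : ∀ k : ℕ, ∀ x ∈ Mi, t ^ k • x ∈ Mi := by
    intro k x hx
    rw [hMi] at hx ⊢
    obtain ⟨n, hx⟩ := hx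
    exact ⟨n + k, hMtk k n x hx⟩
  have htMiR : ∀ g ∈ R, ∀ x ∈ tr t Mi, g • x ∈ tr t Mi := by
    intro g hg x hx
    rw [mem_tr] at hx ⊢
    have h1 : t⁻¹ * g * t ∈ R := by
      rw [hn]
      have e : t * (t⁻¹ * g * t) * t⁻¹ = g := by group
      rw [e]; exact hg
    have h2 := hMiR _ h1 _ hx
    have e : (t⁻¹ * g * t) • (t⁻¹ • x) = t⁻¹ • (g • x) := by
      rw [← mul_smul, ← mul_smul]
      congr 1
      group
    rw [e] at h2
    exact h2
  obtain ⟨l', hl'0, hl'⟩ := hR (tr t Mi) htMiR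
  refine ⟨(∏ i ∈ Finset.range (n₀ + 1), lf i) * l', mul_ne_zero
    (Finset.prod_ne_zero_iff.2 fun i _ => hl0 i) hl'0, ?_⟩
  intro q hq0 hqu hcop
  set l : J := (∏ i ∈ Finset.range (n₀ + 1), lf i) * l' with hldef
  have hdvd : ∀ n, n ≤ n₀ → lf n ∣ l := fun n hn' =>
    (Finset.dvd_prod_of_mem lf (Finset.mem_range.2 (by omega))).trans (dvd_mul_right _ _)
  have hdvd' : l' ∣ l := dvd_mul_left _ _
  have hsec : ∀ n, Gd l q N (K n) := by
    intro n
    by_cases h : n ≤ n₀
    · exact (hl n q hq0 hqu (hcop.of_isCoprime_of_dvd_right (hdvd n h))).mono (hdvd n h)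
    · have h1 : N ⊓ K n = N ⊓ K n₀ := hn₀ n (by omega)
      apply Gd.of_inf
      rw [h1]
      exact ((hl n₀ q hq0 hqu (hcop.of_isCoprime_of_dvd_right (hdvd n₀ le_rfl))).mono
        (hdvd n₀ le_rfl)).inf
  have hchain1 : Gd l q Mi B := by
    have h1 := Gd.chain hcop M hMmono (by
      intro n
      refine (Gd.sup ?_).anti (nS_succ_le t N B n)
      have h2 := (hsec n).tr (t ^ n)
      have e : tr (t ^ n) (K n) = M n := by
        ext x
        rw [mem_tr, memK, smul_inv_smul]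
      rw [e] at h2
      exact h2)
    rw [hM0] at h1
    exact h1
  let M' : ℕ → Submodule J A := fun n => tr (t ^ n)⁻¹ Mi
  have memM' : ∀ n x, x ∈ M' n ↔ t ^ n • x ∈ Mi := by
    intro n x
    change ((t ^ n)⁻¹)⁻¹ • x ∈ Mi ↔ _
    rw [inv_inv]
  have hM'mono : Monotone M' := by
    refine monotone_nat_of_le_succ fun n x hx => ?_
    rw [memM'] at hx ⊢
    rw [pow_succ', mul_smul]
    have h1 := hMitk 1 _ hx
    rw [pow_one] at h1
    exact h1
  have hM'0 : M' 0 = Mi := by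
    ext x
    rw [memM', pow_zero, one_smul]
  have hone : Gd l q (tr t⁻¹ Mi) Mi := by
    have h1 : Gd l q N (tr t Mi) :=
      (hl' q hq0 hqu (hcop.of_isCoprime_of_dvd_right hdvd')).mono hdvd'
    have h2 := h1.tr t⁻¹
    have e : tr t⁻¹ (tr t Mi) = Mi := by
      ext x
      rw [mem_tr, mem_tr, inv_inv, inv_smul_smul]
    rw [e] at h2
    refine h2.sup.anti ?_
    intro x hx
    rw [mem_tr, inv_inv] at hx
    obtain ⟨n, hn'⟩ := (hMi _).1 hx
    -- `t x ∈ B + ∑_{i<n} t^i N`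
    have h3 : t • x ∈ tr t (Mi ⊔ tr t⁻¹ N) := by
      have h4 : M n ≤ tr t (Mi ⊔ tr t⁻¹ N) := by
        refine sup_le ?_ ?_
        · intro y hy
          rw [mem_tr]
          refine Submodule.mem_sup_left ((hMi _).2 ⟨0, ?_⟩)
          rw [hM0]
          exact hB _ (P.inv_mem ht) y hy
        · unfold nS
          rw [Submodule.span_le]
          rintro y ⟨i, _, z, hz, rfl⟩
          change t⁻¹ • (t ^ i • z) ∈ Mi ⊔ tr t⁻¹ N
          rcases i with _ | i
          · rw [pow_zero, one_smul]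
            refine Submodule.mem_sup_right ?_
            rw [mem_tr, inv_inv, smul_inv_smul]
            exact hz
          · refine Submodule.mem_sup_left ((hMi _).2 ⟨i + 1, ?_⟩)
            have e2 : t⁻¹ • (t ^ (i + 1) • z) = t ^ i • z := by
              rw [pow_succ', mul_smul, inv_smul_smul]
            rw [e2]
            exact Submodule.mem_sup_right (nS_gen t N (Nat.lt_succ_self i) hz)
      exact h4 hn'
    rw [mem_tr, inv_smul_smul] at h3
    exact h3
  have hchain2 : Gd l q (⨆ n, M' n) Mi := by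
    have h1 := Gd.chain hcop M' hM'mono (by
      intro n
      have h2 := hone.tr (t ^ n)⁻¹
      have e : tr (t ^ n)⁻¹ (tr t⁻¹ Mi) = M' (n + 1) := by
        ext x
        rw [mem_tr, mem_tr, memM', inv_inv, inv_inv, ← mul_smul, ← pow_succ']
      rw [e] at h2
      exact h2)
    rw [hM'0] at h1
    exact h1
  have hMiC : Mi ≤ ⨆ n, M' n := by
    rw [← hM'0]
    exact le_iSup M' 0
  have hBMi : B ≤ Mi := by
    rw [← hM0]
    exact le_iSup M 0
  refine (Gd.trans hcop hBMi hMiC hchain1 hchain2).anti ?_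
  intro z hz
  have hz' : z ∈ sp J P (N : Set A) := by
    rw [hNdef, sp_sp hRP]
    exact hz
  obtain ⟨k, n, hkn⟩ := ncover hc hNst z hz'
  have h1 : z ∈ M' k := by
    rw [memM', hMi]
    exact ⟨n, Submodule.mem_sup_right hkn⟩
  exact (le_iSup M' k) h1

/-- generic freeness for finitely generated modules over polycyclic groups (P. Hall). -/
theorem gf_main [IsDomain J] [IsNoetherianRing J] (hΓ : PC Γ) (S : Set A) (hS : S.Finite) :
    NoeJ J (⊤ : Subgroup Γ) (sp J (⊤ : Subgroup Γ) S) ∧ GF J (⊤ : Subgroup Γ) S := by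
  refine poly_ind hΓ (fun R => NoeJ J R (sp J R S) ∧ GF J R S) ⟨noeJ_base S hS, ?_⟩ ?_
  · intro B _
    have hfg : (sp J (⊥ : Subgroup Γ) S).FG := by
      rw [sp_bot]
      exact Submodule.fg_span hS
    obtain ⟨l, hl0, hl⟩ := Gd_fg (sp J (⊥ : Subgroup Γ) S) B hfg
    exact ⟨l, hl0, fun q hq0 hqu _ => hl q hq0 hqu⟩
  · rintro R P t hRP ht hn hc ⟨h1, h2⟩
    refine ⟨?_, gf_step S R P t hRP ht hn hc h1 h2⟩
    have h3 := noeJ_step R P t hRP ht hn hc _ (sp_stable R S) h1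
    rw [sp_sp hRP] at h3
    exact h3

/-- a finitely generated module on which all nonzero elements of `J` act bijectively is zero. -/
theorem no_divisible [IsDomain J] [IsNoetherianRing J] (hΓ : PC Γ)
    (hJ : ∀ l : J, l ≠ 0 → ∃ q : J, q ≠ 0 ∧ ¬ IsUnit q ∧ IsCoprime q l) (S : Set A) (hS : S.Finite)
    (hgen : sp J (⊤ : Subgroup Γ) S = ⊤)
    (hinj : ∀ l : J, l ≠ 0 → ∀ a : A, l • a = 0 → a = 0)
    (hsur : ∀ l : J, l ≠ 0 → ∀ a : A, ∃ b : A, a = l • b) : ∀ a : A, a = 0 := by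
  intro a
  obtain ⟨l, hl0, hl⟩ := (gf_main hΓ S hS).2 (⊥ : Submodule J A) (by
    intro g _ x hx
    rw [Submodule.mem_bot] at hx ⊢
    rw [hx, smul_zero])
  obtain ⟨q, hq0, hqu, hql⟩ := hJ l hl0
  have h1 := (hl q hq0 hqu hql).2 a (by rw [hgen]; exact Submodule.mem_top) (fun k => by
    obtain ⟨b, hb⟩ := hsur (q ^ k) (pow_ne_zero k hq0) a
    refine ⟨b, by rw [hgen]; exact Submodule.mem_top, ?_⟩
    rw [← hb, sub_self]
    exact Submodule.zero_mem _)
  obtain ⟨n, hn⟩ := h1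
  exact hinj _ (pow_ne_zero n hl0) a ((Submodule.mem_bot J).1 hn)

end action

end Pool.Agent.T2H17.RFV
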