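import Pool.Agent.T2H17.RFV.Gen
import Pool.Agent.Helper294.HallC.NoeOfFg
import Pool.Agent.H53R2.FinNil

/-!
# Finitely generated modules over finitely generated nilpotent groups are residually finite

(P. Hall 1959.)
-/

set_option autoImplicit false
set_option linter.unusedSectionVars false

namespace Pool.Agent.T2H17.RFV

open Pool.Agent.Helper294.HallC Pool.Agent.H53R2 Polynomial

/-- a power of a unipotent element is trivial if the ring has positive characteristic -/
theorem unip_aux {S : Type} [Ring S] (v : S) (N : ℕ) :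
    ∃ t : S, Commute t v ∧ (1 + v) ^ N = 1 + (N : S) * v + v ^ 2 * t := by
  induction N with
  | zero => exact ⟨0, Commute.zero_left _, by simp⟩
  | succ N ih =>
    obtain ⟨t, ht, h⟩ := ih
    refine ⟨(N : S) + t + t * v, ?_, ?_⟩
    · exact ((Nat.cast_commute N v).add_left ht).add_left (ht.mul_left (Commute.refl v))
    · rw [pow_succ, h]
      push_cast
      have h1 : (N : S) * v = v * N := (Nat.cast_commute N v).eq
      noncomm_ring
      have h2 : v * (v * (N : S)) = (N:S) * (v * v) := by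
        rw [← h1, ← mul_assoc, ← h1, mul_assoc]
      rw [h1, h2]
      abel

theorem unip {S : Type} [Ring S] (N : ℕ) (hN : 0 < N) (hN0 : (N : S) = 0) (n : ℕ) :
    ∀ v : S, v ^ n = 0 → ∃ e : ℕ, 0 < e ∧ (1 + v) ^ e = 1 := by
  induction n with
  | zero =>
    intro v hv
    rw [pow_zero] at hv
    exact ⟨1, one_pos, by
      have : ∀ x : S, x = 0 := fun x => by rw [← mul_one x, hv, mul_zero]
      rw [this (1 + v) , this ((0 : S) ^ 1), hv]⟩
  | succ n ih =>
    intro v hv
    rcases Nat.eq_zero_or_pos n with rfl | hn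
    · rw [zero_add, pow_one] at hv
      exact ⟨1, one_pos, by rw [hv, add_zero, one_pow]⟩
    obtain ⟨t, ht, h⟩ := unip_aux v N
    rw [hN0, zero_mul, add_zero] at h
    obtain ⟨e, he, h1⟩ := ih (v ^ 2 * t) (by
      have hc : Commute (v ^ 2) t := (ht.symm.pow_left 2)
      rw [hc.mul_pow, ← pow_mul]
      have h2 : v ^ (2 * n) = 0 := by
        have : 2 * n = (n + 1) + (n - 1) := by omega
        rw [this, pow_add, hv, zero_mul]
      rw [h2, zero_mul])
    refine ⟨N * e, Nat.mul_pos hN he, ?_⟩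
    rw [pow_mul, h, h1]

section

variable {Γ A : Type} [Group Γ] [AddCommGroup A] [DistribMulAction Γ A]

theorem E_mul (c d : AddMonoid.End A) (x : A) : (c * d) x = c (d x) := rfl

/-- the kernel of an additive endomorphism -/
def kerE (c : AddMonoid.End A) : AddSubgroup A where
  carrier := {x | c x = 0}
  zero_mem' := map_zero c
  add_mem' := by
    intro x y hx hy
    have hx' : c x = 0 := hx
    have hy' : c y = 0 := hy
    change c (x + y) = 0
    rw [map_add, hx', hy', add_zero]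
  neg_mem' := by
    intro x hx
    have hx' : c x = 0 := hx
    change c (-x) = 0
    rw [map_neg, hx', neg_zero]

/-- the range of an additive endomorphism -/
def ranE (c : AddMonoid.End A) : AddSubgroup A where
  carrier := {y | ∃ x, y = c x}
  zero_mem' := ⟨0, (map_zero c).symm⟩
  add_mem' := by
    rintro _ _ ⟨x, rfl⟩ ⟨y, rfl⟩
    exact ⟨x + y, (map_add c x y).symm⟩
  neg_mem' := by
    rintro _ ⟨x, rfl⟩
    exact ⟨-x, (map_neg c x).symm⟩

theorem mem_kerE {c : AddMonoid.End A} {x : A} : x ∈ kerE c ↔ c x = 0 := Iff.rfl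

theorem mem_ranE {c : AddMonoid.End A} {y : A} : y ∈ ranE c ↔ ∃ x, y = c x := Iff.rfl

theorem fitting (hN : Noe Γ A) (a : A) (ha : a ≠ 0)
    (hmono : ∀ C : AddSubgroup A, Stb Γ C → C ≠ ⊥ → a ∈ C) (c : AddMonoid.End A)
    (hc : ∀ (g : Γ) (x : A), c (g • x) = g • c x) (hca : c a = 0) :
    ∃ n : ℕ, c ^ n = 0 := by
  have hcn : ∀ (n : ℕ) (g : Γ) (x : A), (c ^ n) (g • x) = g • (c ^ n) x := by
    intro n
    induction n with
    | zero => intro g x; rfl
    | succ n ih =>
      intro g x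
      rw [pow_succ', E_mul, E_mul, ih, hc]
  obtain ⟨n, hn⟩ := hN (fun n => kerE (c ^ n)) (by
    refine monotone_nat_of_le_succ fun n x hx => ?_
    rw [mem_kerE] at hx ⊢
    rw [pow_succ', E_mul, hx, map_zero]) (by
    intro n g x hx
    rw [mem_kerE] at hx ⊢
    rw [hcn, hx, smul_zero])
  refine ⟨n + 1, ?_⟩
  by_contra hne
  have hC : ranE (c ^ (n + 1)) ≠ ⊥ := by
    intro h
    apply hne
    ext x
    have h1 : (c ^ (n + 1)) x ∈ ranE (c ^ (n + 1)) := ⟨x, rfl⟩
    rw [h] at h1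
    exact (AddSubgroup.mem_bot).1 h1
  obtain ⟨b, hb⟩ := hmono _ (by
    rintro g _ ⟨x, rfl⟩
    exact ⟨g • x, (hcn (n + 1) g x).symm⟩) hC
  have h1 : b ∈ kerE (c ^ (n + 2)) := by
    rw [mem_kerE, show n + 2 = (n + 1) + 1 from rfl, pow_succ', E_mul, ← hb, hca]
  rw [hn (n + 2) (by omega), mem_kerE] at h1
  apply ha
  rw [hb, pow_succ', E_mul, h1, map_zero]

/-- in a monolithic module the monolith is a torsion module over central domains. -/
theorem tors {J : Type} [CommRing J] [IsDomain J] [IsNoetherianRing J] [Module J A]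
    [SMulCommClass Γ J A] (hΓ : PC Γ)
    (hJ : ∀ l : J, l ≠ 0 → ∃ q : J, q ≠ 0 ∧ ¬ IsUnit q ∧ IsCoprime q l) (a : A)
    (hmono : ∀ C : AddSubgroup A, Stb Γ C → C ≠ ⊥ → a ∈ C) :
    ∃ f : J, f ≠ 0 ∧ f • a = 0 := by
  by_contra hcon
  push Not at hcon
  obtain ⟨l, hl0, hl⟩ := (gf_main (J := J) hΓ ({a} : Set A) (Set.finite_singleton a)).2 ⊥ (by
    intro g _ x hx
    rw [Submodule.mem_bot] at hx ⊢
    rw [hx, smul_zero])
  obtain ⟨q, hq0, hqu, hql⟩ := hJ l hl0
  have haR : a ∈ sp J (⊤ : Subgroup Γ) ({a} : Set A) := sp_self _ _ rfl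
  obtain ⟨n, hn⟩ := (hl q hq0 hqu hql).2 a haR (fun k => by
    let C : AddSubgroup A :=
      { carrier := {x | ∃ b ∈ sp J (⊤ : Subgroup Γ) ({a} : Set A), x = q ^ k • b}
        zero_mem' := ⟨0, Submodule.zero_mem _, (smul_zero _).symm⟩
        add_mem' := by
          rintro x y ⟨b, hb, rfl⟩ ⟨b', hb', rfl⟩
          exact ⟨b + b', Submodule.add_mem _ hb hb', (smul_add _ _ _).symm⟩
        neg_mem' := by
          rintro x ⟨b, hb, rfl⟩
          exact ⟨-b, Submodule.neg_mem _ hb, (smul_neg _ _).symm⟩ }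
    have hC : a ∈ C := by
      apply hmono
      · rintro g x ⟨b, hb, rfl⟩
        exact ⟨g • b, sp_stable ⊤ _ g (Subgroup.mem_top g) b hb, smul_comm _ _ _⟩
      · intro h
        have h1 : q ^ k • a ∈ C := ⟨a, haR, rfl⟩
        rw [h, AddSubgroup.mem_bot] at h1
        exact hcon _ (pow_ne_zero k hq0) h1
    obtain ⟨b, hb, h⟩ := hC
    refine ⟨b, hb, ?_⟩
    rw [← h, sub_self]
    exact Submodule.zero_mem _)
  exact hcon _ (pow_ne_zero n hl0) ((Submodule.mem_bot J).1 hn)

theorem int_q (l : ℤ) (hl : l ≠ 0) : ∃ q : ℤ, q ≠ 0 ∧ ¬ IsUnit q ∧ IsCoprime q l := by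
  have h1 : 0 < l * l := mul_self_pos.2 hl
  refine ⟨2 * (l * l) + 1, by omega, ?_, ⟨1, -(2 * l), by ring⟩⟩
  rw [Int.isUnit_iff]
  omega

theorem poly_q (p : ℕ) [Fact p.Prime] (l : (ZMod p)[X]) (hl : l ≠ 0) :
    ∃ q : (ZMod p)[X], q ≠ 0 ∧ ¬ IsUnit q ∧ IsCoprime q l := by
  have hd : (X * l + 1 : (ZMod p)[X]).natDegree = l.natDegree + 1 := by
    have h1 : (X * l : (ZMod p)[X]).natDegree = l.natDegree + 1 := natDegree_X_mul hl
    have h2 : (X * l + C 1 : (ZMod p)[X]).natDegree = (X * l : (ZMod p)[X]).natDegree :=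
      natDegree_add_C
    rw [C_1] at h2
    rw [h2, h1]
  refine ⟨X * l + 1, ?_, ?_, ⟨1, -X, by ring⟩⟩
  · intro h
    rw [h, natDegree_zero] at hd
    omega
  · intro h
    have := natDegree_eq_zero_of_isUnit h
    omega

/-- the monolith has prime exponent -/
theorem exists_prime (hΓ : PC Γ) (a : A) (ha : a ≠ 0)
    (hmono : ∀ C : AddSubgroup A, Stb Γ C → C ≠ ⊥ → a ∈ C) :
    ∃ p : ℕ, p.Prime ∧ p • a = 0 := by
  obtain ⟨f, hf0, hf⟩ := tors (J := ℤ) hΓ int_q a hmono
  have hfin : IsOfFinAddOrder a := isOfFinAddOrder_iff_zsmul_eq_zero.2 ⟨f, hf0, hf⟩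
  have h1 : addOrderOf a ≠ 1 := by
    rw [Ne, AddMonoid.addOrderOf_eq_one_iff]; exact ha
  obtain ⟨p, hp, hdvd⟩ := Nat.exists_prime_and_dvd h1
  refine ⟨p, hp, ?_⟩
  obtain ⟨m, hm⟩ := hdvd
  have hm0 : m • a ≠ 0 := by
    intro h
    have h2 := addOrderOf_dvd_of_nsmul_eq_zero h
    have h3 := hfin.addOrderOf_pos
    rw [hm] at h2 h3
    have h4 : 0 < m := Nat.pos_of_mul_pos_left h3
    have h5 := Nat.le_of_dvd h4 h2
    have h6 := hp.two_le
    nlinarith
  let C : AddSubgroup A := AddMonoidHom.ker (nsmulAddMonoidHom p : A →+ A)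
  have hC : a ∈ C := by
    apply hmono
    · intro g x hx
      change p • x = 0 at hx
      change p • (g • x) = 0
      rw [smul_comm, hx, smul_zero]
    · intro h
      have h2 : m • a ∈ C := by
        change p • (m • a) = 0
        rw [← mul_smul, ← hm, addOrderOf_nsmul_eq_zero]
      rw [h, AddSubgroup.mem_bot] at h2
      exact hm0 h2
  exact hC

end

/-- a central element acts on the monolith with finite order -/
theorem exists_period (p : ℕ) [Fact p.Prime] {Γ V : Type} [Group Γ] [AddCommGroup V]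
    [Module (ZMod p) V] [DistribMulAction Γ V] (hΓ : PC Γ) (z : Γ) (hz : ∀ g, g * z = z * g)
    (a : V) (hmono : ∀ C : AddSubgroup V, Stb Γ C → C ≠ ⊥ → a ∈ C) :
    ∃ k : ℕ, 0 < k ∧ z ^ k • a = a := by
  let E := AddMonoid.End V
  let x : E := DistribMulAction.toAddMonoidEnd Γ V z
  let f : ZMod p →+* E := Module.toAddMonoidEnd (ZMod p) V
  have hcomm : ∀ c, Commute (f c) x := by
    intro c
    change f c * x = x * f c
    ext v
    change c • (z • v) = z • (c • v)
    exact (ZMod.map_smul (DistribMulAction.toAddMonoidEnd Γ V z : V →+ V) c v).symm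
  let φ : (ZMod p)[X] →+* E := Polynomial.eval₂RingHom' f x hcomm
  have hφX : ∀ (n : ℕ) (v : V), φ (X ^ n) v = z ^ n • v := by
    intro n v
    have h1 : φ (X ^ n) = x ^ n := by
      rw [map_pow]
      congr 1
      exact eval₂_X _ _
    rw [h1, ← map_pow]
    rfl
  have hφg : ∀ (c : (ZMod p)[X]) (g : Γ) (v : V), φ c (g • v) = g • φ c v := by
    intro c g v
    induction c using Polynomial.induction_on' with
    | add c d hc hd =>
      have h1 : ∀ w, (φ c + φ d) w = φ c w + φ d w := fun _ => rfl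
      rw [map_add, h1, h1, hc, hd, smul_add]
    | monomial n c =>
      have h1 : φ (monomial n c) = f c * x ^ n := eval₂_monomial _ _
      rw [h1]
      have h2 : ∀ w : V, (f c * x ^ n) w = c • (z ^ n • w) := by
        intro w
        rw [← map_pow]
        rfl
      rw [h2, h2]
      have h3 : z ^ n * g = g * z ^ n := ((show Commute g z from hz g).pow_right n).symm.eq
      rw [← mul_smul, h3, mul_smul]
      exact (ZMod.map_smul (DistribMulAction.toAddMonoidEnd Γ V g : V →+ V) c _).symm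
  let _ : Module (ZMod p)[X] V := Module.compHom V φ
  have hsm : ∀ (c : (ZMod p)[X]) (v : V), c • v = φ c v := fun _ _ => rfl
  have : SMulCommClass Γ (ZMod p)[X] V := ⟨fun g c v => by rw [hsm, hsm, hφg]⟩
  obtain ⟨F, hF0, hF⟩ := tors (J := (ZMod p)[X]) hΓ (poly_q p) a hmono
  have : Finite (degreeLT (ZMod p) F.natDegree) :=
    Finite.of_equiv _ (degreeLTEquiv (ZMod p) F.natDegree).symm.toEquiv
  have hdeg : ∀ n : ℕ, (X ^ n % F : (ZMod p)[X]) ∈ degreeLT (ZMod p) F.natDegree := by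
    intro n
    rw [mem_degreeLT, ← degree_eq_natDegree hF0]
    exact EuclideanDomain.mod_lt _ hF0
  obtain ⟨i, j, hij, h⟩ := Finite.exists_ne_map_eq_of_infinite
    (fun n : ℕ => (⟨X ^ n % F, hdeg n⟩ : degreeLT (ZMod p) F.natDegree))
  have h1 : (X ^ i % F : (ZMod p)[X]) = X ^ j % F := congrArg Subtype.val h
  have hred : ∀ n : ℕ, z ^ n • a = (X ^ n % F : (ZMod p)[X]) • a := by
    intro n
    rw [← hφX, ← hsm]
    conv_lhs => rw [← EuclideanDomain.div_add_mod (X ^ n : (ZMod p)[X]) F]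
    rw [add_smul, mul_comm, mul_smul, hF, smul_zero, zero_add]
  have h2 : z ^ i • a = z ^ j • a := by rw [hred, hred, h1]
  rcases lt_or_gt_of_ne hij with hlt | hlt
  · refine ⟨j - i, by omega, ?_⟩
    have h3 : z ^ j = z ^ i * z ^ (j - i) := by rw [← pow_add]; congr 1; omega
    rw [h3, mul_smul] at h2
    exact (smul_left_cancel _ h2).symm
  · refine ⟨i - j, by omega, ?_⟩
    have h3 : z ^ i = z ^ j * z ^ (i - j) := by rw [← pow_add]; congr 1; omega
    rw [h3, mul_smul] at h2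
    exact (smul_left_cancel _ h2)

/-- restriction of the action to a stable subgroup -/
@[reducible] def subAct {Γ A : Type} [Group Γ] [AddCommGroup A] [DistribMulAction Γ A]
    (B : AddSubgroup A) (hB : Stb Γ B) : DistribMulAction Γ B where
  smul g b := ⟨g • (b : A), hB g b b.2⟩
  one_smul b := Subtype.ext (one_smul Γ (b : A))
  mul_smul g h b := Subtype.ext (mul_smul g h (b : A))
  smul_zero g := Subtype.ext (smul_zero g)
  smul_add g b c := Subtype.ext (smul_add g (b : A) (c : A))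

section

variable {Γ A : Type} [Group Γ] [AddCommGroup A] [DistribMulAction Γ A]

/-- a central element fixes a power on the monolith -/
theorem exists_period' (hΓ : PC Γ) (z : Γ) (hz : ∀ g, g * z = z * g) (p : ℕ) (hp : p.Prime)
    (a : A) (ha : p • a = 0) (hmono : ∀ C : AddSubgroup A, Stb Γ C → C ≠ ⊥ → a ∈ C) :
    ∃ k : ℕ, 0 < k ∧ z ^ k • a = a := by
  have : Fact p.Prime := ⟨hp⟩
  let V : AddSubgroup A := kerE (p : AddMonoid.End A)
  have hmem : ∀ x : A, x ∈ V ↔ p • x = 0 := by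
    intro x
    rw [mem_kerE, AddMonoid.End.natCast_apply]
  have hV : Stb Γ V := by
    intro g x hx
    rw [hmem] at hx ⊢
    rw [smul_comm, hx, smul_zero]
  let _ : DistribMulAction Γ V := subAct V hV
  let _ : Module (ZMod p) V := AddCommGroup.zmodModule (n := p) (fun x => Subtype.ext (by
    have := (hmem x).1 x.2
    rw [AddSubgroup.coe_nsmul, this]; rfl))
  obtain ⟨k, hk, h⟩ := exists_period p hΓ z hz (⟨a, (hmem a).2 ha⟩ : V) (by
    intro C hC hC0
    have h1 : a ∈ C.map V.subtype := by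
      apply hmono
      · rintro g _ ⟨x, hx, rfl⟩
        exact ⟨g • x, hC g x hx, rfl⟩
      · intro h
        apply hC0
        rw [eq_bot_iff]
        intro x hx
        have h2 : (x : A) ∈ C.map V.subtype := ⟨x, hx, rfl⟩
        rw [h, AddSubgroup.mem_bot] at h2
        rw [AddSubgroup.mem_bot]
        exact Subtype.ext h2
    obtain ⟨x, hx, hxa⟩ := h1
    have : x = (⟨a, (hmem a).2 ha⟩ : V) := Subtype.ext hxa
    rw [← this]
    exact hx)
  exact ⟨k, hk, congrArg Subtype.val h⟩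

/-- a central element acts with finite order -/
theorem central_order (hΓ : PC Γ) (hN : Noe Γ A) (z : Γ) (hz : ∀ g, g * z = z * g)
    (a : A) (ha : a ≠ 0) (hmono : ∀ C : AddSubgroup A, Stb Γ C → C ≠ ⊥ → a ∈ C) :
    ∃ e : ℕ, 0 < e ∧ ∀ x : A, z ^ e • x = x := by
  obtain ⟨p, hp, hpa⟩ := exists_prime hΓ a ha hmono
  obtain ⟨k, hk, hka⟩ := exists_period' hΓ z hz p hp a hpa hmono
  obtain ⟨m, hm⟩ := fitting hN a ha hmono (p : AddMonoid.End A) (by
    intro g x
    rw [AddMonoid.End.natCast_apply, AddMonoid.End.natCast_apply, smul_comm]) (by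
    rw [AddMonoid.End.natCast_apply, hpa])
  let w : AddMonoid.End A := DistribMulAction.toAddMonoidEnd Γ A (z ^ k)
  have hzk : ∀ g, g * z ^ k = z ^ k * g := fun g =>
    ((show Commute g z from hz g).pow_right k).eq
  have hw : ∀ x, (w - 1) x = z ^ k • x - x := fun x => rfl
  obtain ⟨n, hn⟩ := fitting hN a ha hmono (w - 1) (by
    intro g x
    rw [hw, hw, smul_sub, ← mul_smul, ← mul_smul, hzk]) (by rw [hw, hka, sub_self])
  obtain ⟨e, he, h⟩ := unip (p ^ m) (Nat.pow_pos hp.pos) (by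
    rw [Nat.cast_pow]; exact hm) n (w - 1) hn
  refine ⟨k * e, Nat.mul_pos hk he, ?_⟩
  intro x
  have h1 : w ^ e = 1 := by
    rw [← h]; congr 1; abel
  have h2 : w ^ e = DistribMulAction.toAddMonoidEnd Γ A (z ^ (k * e)) := by
    rw [pow_mul, ← map_pow]
  rw [h2] at h1
  exact congrArg (fun f : AddMonoid.End A => f x) h1

theorem mono_finite [Group.IsNilpotent Γ] [Group.FG Γ] [FaithfulSMul Γ A] (hA : FGM Γ A)
    (a : A) (ha : a ≠ 0) (hmono : ∀ C : AddSubgroup A, Stb Γ C → C ≠ ⊥ → a ∈ C) : Finite A := by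
  have hΓ : PC Γ := ⟨(inferInstance : Group.IsSolvable Γ), nil_maxC Γ⟩
  have hN : Noe Γ A := noe_of_fg hΓ hA
  have hord : ∀ z ∈ Subgroup.center Γ, IsOfFinOrder z := by
    intro z hz
    obtain ⟨e, he, h⟩ := central_order hΓ hN z (fun g => Subgroup.mem_center_iff.1 hz g) a ha hmono
    refine isOfFinOrder_iff_pow_eq_one.2 ⟨e, he, ?_⟩
    apply FaithfulSMul.eq_of_smul_eq_smul (α := A)
    intro x
    rw [h, one_smul]
  have hcfg : Group.FG (Subgroup.center Γ) :=
    (Group.fg_iff_subgroup_fg _).mpr Helper111.EN.center_fg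
  have hcfin : Finite (Subgroup.center Γ) := Helper111.EN.finite_of_fg_nilpotent _ (fun x =>
    Submonoid.isOfFinOrder_coe.1 (hord x x.2))
  have hfin : Finite Γ := fin_nil Γ (Nat.card (Subgroup.center Γ)) Nat.card_pos (fun z hz => by
    have := pow_card_eq_one' (x := (⟨z, hz⟩ : Subgroup.center Γ))
    exact congrArg Subtype.val this)
  obtain ⟨p, hp, hpa⟩ := exists_prime hΓ a ha hmono
  obtain ⟨m, hm⟩ := fitting hN a ha hmono (p : AddMonoid.End A) (by
    intro g x
    rw [AddMonoid.End.natCast_apply, AddMonoid.End.natCast_apply, smul_comm]) (by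
    rw [AddMonoid.End.natCast_apply, hpa])
  have hm' : ∀ x : A, (p ^ m) • x = 0 := by
    intro x
    have h1 : ((p ^ m : ℕ) : AddMonoid.End A) x = 0 := by
      rw [Nat.cast_pow, hm]; rfl
    rwa [AddMonoid.End.natCast_apply] at h1
  obtain ⟨S, hS⟩ := hA
  have hfg : AddGroup.FG A := by
    rw [AddGroup.fg_iff]
    refine ⟨_, hS, ?_⟩
    have : {a : A | ∃ g : Γ, ∃ s ∈ S, a = g • s} =
        Set.image2 (fun (g : Γ) (s : A) => g • s) Set.univ (S : Set A) := by
      ext x
      constructor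
      · rintro ⟨g, s, hs, rfl⟩
        exact ⟨g, trivial, s, hs, rfl⟩
      · rintro ⟨g, _, s, hs, rfl⟩
        exact ⟨g, s, hs, rfl⟩
    rw [this]
    exact Set.Finite.image2 _ Set.finite_univ S.finite_toSet
  have hfin2 : Module.Finite ℤ A := Module.Finite.iff_addGroup_fg.2 hfg
  refine Module.finite_of_fg_torsion A ?_
  intro x
  refine ⟨⟨((p ^ m : ℕ) : ℤ), mem_nonZeroDivisors_of_ne_zero (by
    have := hp.pos
    positivity)⟩, ?_⟩
  change ((p ^ m : ℕ) : ℤ) • x = 0
  rw [natCast_zsmul]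
  exact hm' x

end

end Pool.Agent.T2H17.RFV
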