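import Pool.Agent.T2H17.RFV.Mod

set_option autoImplicit false
set_option linter.unusedSectionVars false

namespace Pool.Agent.T2H17.RFV

open Pool.Agent.Helper294.HallC Pool.Agent.H53R2

/-- the action on the quotient by a stable subgroup -/
@[reducible] def quotAct {Γ A : Type} [Group Γ] [AddCommGroup A] [DistribMulAction Γ A]
    (B : AddSubgroup A) (hB : Stb Γ B) : DistribMulAction Γ (A ⧸ B) where
  smul g := QuotientAddGroup.map B B (DistribSMul.toAddMonoidHom A g) (fun x hx => hB g x hx)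
  one_smul := by
    intro x
    obtain ⟨x, rfl⟩ := QuotientAddGroup.mk'_surjective B x
    exact congrArg (QuotientAddGroup.mk' B) (one_smul Γ x)
  mul_smul := by
    intro g h x
    obtain ⟨x, rfl⟩ := QuotientAddGroup.mk'_surjective B x
    exact congrArg (QuotientAddGroup.mk' B) (mul_smul g h x)
  smul_zero := by
    intro g
    exact map_zero _
  smul_add := by
    intro g x y
    exact map_add _ x y

section

variable {Γ A : Type} [Group Γ] [AddCommGroup A] [DistribMulAction Γ A]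

theorem mono_finite' [Group.IsNilpotent Γ] [Group.FG Γ] (hA : FGM Γ A)
    (a : A) (ha : a ≠ 0) (hmono : ∀ C : AddSubgroup A, Stb Γ C → C ≠ ⊥ → a ∈ C) : Finite A := by
  let F : Γ →* Equiv.Perm A := MulAction.toPermHom Γ A
  let f : Γ →* F.range := F.rangeRestrict
  have hf : Function.Surjective f := F.rangeRestrict_surjective
  let _ : DistribMulAction F.range A :=
    { smul := fun x a => (x : Equiv.Perm A) a
      one_smul := fun a => rfl
      mul_smul := fun x y a => rfl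
      smul_zero := by
        intro x
        obtain ⟨g, rfl⟩ := hf x
        exact smul_zero g
      smul_add := by
        intro x a b
        obtain ⟨g, rfl⟩ := hf x
        exact smul_add g a b }
  have hact : ∀ (g : Γ) (x : A), (f g) • x = g • x := fun _ _ => rfl
  have : Group.IsNilpotent F.range := Group.nilpotent_of_surjective f hf
  have : Group.FG F.range := Group.fg_of_surjective hf
  have : FaithfulSMul F.range A := ⟨by
    intro x y h
    apply Subtype.ext
    ext a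
    exact h a⟩
  refine mono_finite (Γ := F.range) (A := A) ?_ a ha ?_
  · obtain ⟨S, hS⟩ := hA
    refine ⟨S, ?_⟩
    rw [← hS]
    congr 1
    ext x
    constructor
    · rintro ⟨g, s, hs, rfl⟩
      obtain ⟨g, rfl⟩ := hf g
      exact ⟨g, s, hs, rfl⟩
    · rintro ⟨g, s, hs, rfl⟩
      exact ⟨f g, s, hs, rfl⟩
  · intro C hC hC0
    exact hmono C (fun g x hx => hC (f g) x hx) hC0

theorem Noe.exists_max (hN : Noe Γ A) (P : AddSubgroup A → Prop) (hP : ∀ B, P B → Stb Γ B)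
    (hne : ∃ B, P B) : ∃ B, P B ∧ ∀ C, P C → B ≤ C → C = B := by
  have hwf : WellFoundedGT {B : AddSubgroup A // P B} := by
    rw [wellFoundedGT_iff_monotone_chain_condition]
    intro f
    obtain ⟨n, hn⟩ := hN (fun n => (f n).1) (fun i j hij => f.2 hij) (fun n => hP _ (f n).2)
    exact ⟨n, fun m hm => Subtype.ext (hn m hm).symm⟩
  obtain ⟨B₀, hB₀⟩ := hne
  obtain ⟨B, _, hmax⟩ := hwf.wf.has_min Set.univ ⟨⟨B₀, hB₀⟩, trivial⟩
  refine ⟨B.1, B.2, fun C hC hle => ?_⟩
  by_contra hne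
  exact hmax ⟨C, hC⟩ trivial (lt_of_le_of_ne hle (fun h => hne (congrArg Subtype.val h).symm))

/-- P. Hall: finitely generated modules over finitely generated nilpotent groups are residually
finite. -/
theorem rf_nil [Group.IsNilpotent Γ] [Group.FG Γ] (hA : FGM Γ A) (a : A) (ha : a ≠ 0) :
    ∃ B : AddSubgroup A, Stb Γ B ∧ a ∉ B ∧ B.FiniteIndex := by
  have hΓ : PC Γ := ⟨(inferInstance : Group.IsSolvable Γ), nil_maxC Γ⟩
  have hN : Noe Γ A := noe_of_fg hΓ hA
  obtain ⟨B, ⟨hB, haB⟩, hmax⟩ := Noe.exists_max hN (fun B => Stb Γ B ∧ a ∉ B) (fun B h => h.1)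
    ⟨⊥, by
      intro g x hx
      rw [AddSubgroup.mem_bot] at hx ⊢
      rw [hx, smul_zero], by
      rw [AddSubgroup.mem_bot]; exact ha⟩
  refine ⟨B, hB, haB, ?_⟩
  let _ : DistribMulAction Γ (A ⧸ B) := quotAct B hB
  have hact : ∀ (g : Γ) (x : A), g • (QuotientAddGroup.mk' B x) = QuotientAddGroup.mk' B (g • x) :=
    fun _ _ => rfl
  have hfin : Finite (A ⧸ B) := by
    refine mono_finite' (Γ := Γ) (A := A ⧸ B) ?_ (QuotientAddGroup.mk' B a) ?_ ?_
    · classical
      obtain ⟨S, hS⟩ := hA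
      refine ⟨S.image (QuotientAddGroup.mk' B), ?_⟩
      rw [eq_top_iff]
      rintro x -
      obtain ⟨x, rfl⟩ := QuotientAddGroup.mk'_surjective B x
      have hx : x ∈ AddSubgroup.closure {a : A | ∃ g : Γ, ∃ s ∈ S, a = g • s} := by
        rw [hS]; trivial
      have h1 : QuotientAddGroup.mk' B x ∈ (AddSubgroup.closure
        {a : A | ∃ g : Γ, ∃ s ∈ S, a = g • s}).map (QuotientAddGroup.mk' B) := ⟨x, hx, rfl⟩
      rw [AddMonoidHom.map_closure] at h1
      refine AddSubgroup.closure_mono ?_ h1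
      rintro _ ⟨_, ⟨g, s, hs, rfl⟩, rfl⟩
      exact ⟨g, QuotientAddGroup.mk' B s, Finset.mem_image_of_mem _ hs, rfl⟩
    · intro h
      exact haB ((QuotientAddGroup.eq_zero_iff a).1 h)
    · intro C hC hC0
      by_contra hcon
      have h1 : C.comap (QuotientAddGroup.mk' B) = B := by
        apply hmax
        · refine ⟨?_, hcon⟩
          intro g x hx
          rw [AddSubgroup.mem_comap] at hx ⊢
          exact hC g _ hx
        · intro x hx
          rw [AddSubgroup.mem_comap]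
          have : QuotientAddGroup.mk' B x = 0 := (QuotientAddGroup.eq_zero_iff x).2 hx
          rw [this]
          exact C.zero_mem
      apply hC0
      rw [eq_bot_iff]
      intro x hx
      obtain ⟨x, rfl⟩ := QuotientAddGroup.mk'_surjective B x
      have h2 : x ∈ C.comap (QuotientAddGroup.mk' B) := hx
      rw [h1] at h2
      rw [AddSubgroup.mem_bot]
      exact (QuotientAddGroup.eq_zero_iff x).2 h2
  exact AddSubgroup.finiteIndex_of_finite_quotient

end

/-- finitely generated modules over finitely generated virtually nilpotent groups are residually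
finite. -/
theorem rf_virt {Q E : Type} [Group Q] [AddCommGroup E] [DistribMulAction Q E]
    (Γ : Subgroup Q) [Γ.FiniteIndex] [Group.IsNilpotent Γ] [Group.FG Γ] (hE : FGM Q E)
    (e : E) (he : e ≠ 0) :
    ∃ B : AddSubgroup E, Stb Q B ∧ e ∉ B ∧ B.FiniteIndex := by
  classical
  have : Finite (Q ⧸ Γ) := Subgroup.finite_quotient_of_finiteIndex
  have : Fintype (Q ⧸ Γ) := Fintype.ofFinite _
  have hE' : FGM Γ E := by
    obtain ⟨S, hS⟩ := hE
    refine ⟨Finset.univ.biUnion fun c : Q ⧸ Γ => S.image fun s => (c.out : Q)⁻¹ • s, ?_⟩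
    rw [eq_top_iff, ← hS, AddSubgroup.closure_le]
    rintro _ ⟨g, s, hs, rfl⟩
    apply AddSubgroup.subset_closure
    have h1 : ((g⁻¹ : Q) : Q ⧸ Γ) = (((g⁻¹ : Q) : Q ⧸ Γ).out : Q) := (QuotientGroup.out_eq' _).symm
    have h2 : (g⁻¹)⁻¹ * (((g⁻¹ : Q) : Q ⧸ Γ).out : Q) ∈ Γ := QuotientGroup.eq.1 h1
    rw [inv_inv] at h2
    refine ⟨⟨_, h2⟩, (((g⁻¹ : Q) : Q ⧸ Γ).out : Q)⁻¹ • s, ?_, ?_⟩
    · rw [Finset.mem_biUnion]
      exact ⟨((g⁻¹ : Q) : Q ⧸ Γ), Finset.mem_univ _, Finset.mem_image_of_mem _ hs⟩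
    · change g • s = (g * (((g⁻¹ : Q) : Q ⧸ Γ).out : Q)) • ((((g⁻¹ : Q) : Q ⧸ Γ).out : Q)⁻¹ • s)
      rw [mul_smul, smul_inv_smul]
  obtain ⟨B₀, hB₀, heB₀, hfi⟩ := rf_nil hE' e he
  let f : Q → AddSubgroup E := fun g => B₀.comap (DistribSMul.toAddMonoidHom E g⁻¹)
  have hf : ∀ g x, x ∈ f g ↔ g⁻¹ • x ∈ B₀ := fun _ _ => Iff.rfl
  have hfeq : ∀ (g : Q), f g = f ((g : Q ⧸ Γ).out) := by
    intro g
    have h1 : ((g : Q) : Q ⧸ Γ) = (((g : Q) : Q ⧸ Γ).out : Q) := (QuotientGroup.out_eq' _).symm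
    have h2 : g⁻¹ * (((g : Q) : Q ⧸ Γ).out : Q) ∈ Γ := QuotientGroup.eq.1 h1
    ext x
    rw [hf, hf]
    constructor
    · intro hx
      have h3 := hB₀ ⟨_, Γ.inv_mem h2⟩ _ hx
      have h4 : (⟨(g⁻¹ * (((g : Q) : Q ⧸ Γ).out : Q))⁻¹, Γ.inv_mem h2⟩ : Γ) • (g⁻¹ • x) =
          ((((g : Q) : Q ⧸ Γ).out : Q))⁻¹ • x := by
        change (g⁻¹ * (((g : Q) : Q ⧸ Γ).out : Q))⁻¹ • (g⁻¹ • x) = _
        rw [← mul_smul]
        congr 1
        group
      rwa [h4] at h3
    · intro hx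
      have h3 := hB₀ ⟨_, h2⟩ _ hx
      have h4 : (⟨g⁻¹ * (((g : Q) : Q ⧸ Γ).out : Q), h2⟩ : Γ) •
          (((((g : Q) : Q ⧸ Γ).out : Q))⁻¹ • x) = g⁻¹ • x := by
        change (g⁻¹ * (((g : Q) : Q ⧸ Γ).out : Q)) • (((((g : Q) : Q ⧸ Γ).out : Q))⁻¹ • x) = _
        rw [← mul_smul]
        congr 1
        group
      rwa [h4] at h3
  refine ⟨⨅ c : Q ⧸ Γ, f c.out, ?_, ?_, ?_⟩
  · intro g x hx
    rw [AddSubgroup.mem_iInf] at hx ⊢
    intro c
    rw [hf, ← mul_smul]
    have h1 : x ∈ f (g⁻¹ * c.out) := by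
      rw [hfeq]; exact hx _
    rw [hf] at h1
    have h2 : (g⁻¹ * (c.out : Q))⁻¹ = (c.out : Q)⁻¹ * g := by group
    rwa [h2] at h1
  · intro h
    have h1 : e ∈ f 1 := by
      rw [hfeq]
      exact (AddSubgroup.mem_iInf.1 h) _
    rw [hf, inv_one, one_smul] at h1
    exact heB₀ h1
  · refine AddSubgroup.finiteIndex_iInf fun c => ⟨?_⟩
    change (B₀.comap (DistribSMul.toAddMonoidHom E (c.out : Q)⁻¹)).index ≠ 0
    rw [AddSubgroup.index_comap]
    exact (AddSubgroup.instFiniteIndex_addSubgroupOf B₀ _).index_ne_zero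

end Pool.Agent.T2H17.RFV
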