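import Pool.Agent.T2H17.RFV.Mod2
import Pool.Agent.T2H17.RFV.Fin
import Pool.Agent.H53R2.Small

/-!
# Finitely generated soluble groups with a universal identity are residually finite
-/

set_option autoImplicit false
set_option linter.unusedSectionVars false

namespace Pool.Agent.T2H17.RFV

open Pool.Agent.H53R2 Pool.Agent.Helper294.HallC
open scoped commutatorElement

theorem nil_of_Lw {G : Type} [Group G] (A : Subgroup G) (c : ℕ) (h : Lw A c A = ⊥) :
    Group.IsNilpotent ↥A := by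
  apply E_nilp c
  apply Subgroup.map_injective A.subtype_injective
  rw [E_map_mk, Subgroup.map_bot, h]

theorem center_finite {G : Type} [Group G] [Group.FG G] (hmax : MaxN G) (A G₁ : Subgroup G)
    [A.Normal] [G₁.Normal] [G₁.FiniteIndex] (hnil : Group.IsNilpotent ↥A) (m : ℕ)
    (hm : Lw G₁ m G₁ ≤ A) (g : G)
    (hg : g ≠ 1) (hmono : ∀ N : Subgroup G, N.Normal → N ≠ ⊥ → g ∈ N) :
    Finite (Subgroup.center ↥A) := by
  by_cases hZ : (Subgroup.center ↥A) = ⊥
  · rw [hZ]; infer_instance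
  let Z : Subgroup G := (Subgroup.center ↥A).map A.subtype
  have hZn : Z.Normal := inferInstance
  have hZA : Z ≤ A := by
    rintro _ ⟨x, _, rfl⟩
    exact x.2
  have hZ0 : Z ≠ ⊥ := by
    intro h
    apply hZ
    apply Subgroup.map_injective A.subtype_injective
    rw [Subgroup.map_bot]
    exact h
  have hgZ : g ∈ Z := hmono Z hZn hZ0
  have hcomm : ⁅Z, A⁆ = ⊥ := by
    rw [Subgroup.commutator_eq_bot_iff_le_centralizer]
    rintro _ ⟨x, hx, rfl⟩
    rw [Subgroup.mem_centralizer_iff]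
    intro y hy
    exact congrArg Subtype.val (Subgroup.mem_center_iff.1 hx ⟨y, hy⟩)
  let p : G →* G ⧸ A := QuotientGroup.mk' A
  have hp : Function.Surjective p := QuotientGroup.mk'_surjective A
  have hker : p.ker = A := QuotientGroup.ker_mk' A
  obtain ⟨E, _, _, ⟨s⟩⟩ := exists_secMod p hp ⊥ Z
    (by rw [← hcomm]; exact Subgroup.commutator_mono le_rfl hZA)
    (by rw [hker, hcomm])
  obtain ⟨S, hS⟩ := MaxN.normalClosure hmax Z hZn
  have hfgm : FGM (G ⧸ A) E := K_fgm s S (by rw [hS]; exact Subgroup.subset_normalClosure)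
    (by rw [hS]; exact le_sup_left) bot_le
  let Γ : Subgroup (G ⧸ A) := G₁.map p
  have hΓfi : Γ.FiniteIndex := by
    constructor
    have := Subgroup.index_map_dvd G₁ hp
    exact fun h0 => (inferInstance : G₁.FiniteIndex).index_ne_zero
      (Nat.eq_zero_of_zero_dvd (h0 ▸ this))
  have hΓnil : Group.IsNilpotent ↥Γ := by
    apply nil_of_Lw Γ m
    have h1 := map_Lw p G₁ m G₁
    rw [← h1, eq_bot_iff]
    rintro _ ⟨x, hx, rfl⟩
    exact (QuotientGroup.eq_one_iff x).2 (hm hx)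
  have hΓfg : Group.FG ↥Γ := by
    have : Group.FG (G ⧸ A) := QuotientGroup.fg _
    exact Subgroup.fg_of_index_ne_zero Γ
  have he : (s.π ⟨g, hgZ⟩).toAdd ≠ 0 := by
    intro h
    have h1 : s.π ⟨g, hgZ⟩ = 1 := h
    rw [s.ker] at h1
    exact hg (Subgroup.mem_bot.1 h1)
  obtain ⟨B, hB, heB, hBfi⟩ := rf_virt Γ hfgm _ he
  let M : Subgroup G :=
    { carrier := {y | ∃ h : y ∈ Z, (s.π ⟨y, h⟩).toAdd ∈ B}
      one_mem' := ⟨Z.one_mem, by
        have : s.π ⟨1, Z.one_mem⟩ = 1 := map_one s.π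
        rw [this]; exact B.zero_mem⟩
      mul_mem' := by
        rintro x y ⟨hx, hx'⟩ ⟨hy, hy'⟩
        refine ⟨Z.mul_mem hx hy, ?_⟩
        have : (⟨x * y, Z.mul_mem hx hy⟩ : ↥Z) = ⟨x, hx⟩ * ⟨y, hy⟩ := rfl
        rw [this, map_mul]
        exact B.add_mem hx' hy'
      inv_mem' := by
        rintro x ⟨hx, hx'⟩
        refine ⟨Z.inv_mem hx, ?_⟩
        have : (⟨x⁻¹, Z.inv_mem hx⟩ : ↥Z) = ⟨x, hx⟩⁻¹ := rfl
        rw [this, map_inv]
        exact B.neg_mem hx' }
  have hMn : M.Normal := ⟨by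
    rintro x ⟨hx, hx'⟩ h
    refine ⟨hZn.conj_mem x hx h, ?_⟩
    rw [s.act h ⟨x, hx⟩ ⟨_, hZn.conj_mem x hx h⟩ rfl]
    exact hB _ _ hx'⟩
  have hM : M = ⊥ := by
    by_contra hne
    obtain ⟨h1, h2⟩ := hmono M hMn hne
    exact heB h2
  have hB0 : B = ⊥ := by
    rw [eq_bot_iff]
    intro e he'
    obtain ⟨y, hy⟩ := s.surj (Multiplicative.ofAdd e)
    have h1 : (y : G) ∈ M := ⟨y.2, by
      have : (⟨(y : G), y.2⟩ : ↥Z) = y := rfl
      rw [this, hy]; exact he'⟩
    rw [hM, Subgroup.mem_bot] at h1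
    have h2 : y = 1 := Subtype.ext h1
    rw [h2, map_one] at hy
    exact (AddSubgroup.mem_bot).2 (Multiplicative.ofAdd.injective hy.symm)
  have hEfin : Finite E := by
    rw [hB0] at hBfi
    have h1 : Finite (E ⧸ (⊥ : AddSubgroup E)) := AddSubgroup.finite_quotient_of_finiteIndex
    refine Finite.of_injective (QuotientAddGroup.mk' (⊥ : AddSubgroup E)) ?_
    rw [injective_iff_map_eq_zero]
    intro x hx
    exact (AddSubgroup.mem_bot).1 ((QuotientAddGroup.eq_zero_iff x).1 hx)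
  have hinj : Function.Injective (fun z : Subgroup.center ↥A =>
      (s.π ⟨((z : ↥A) : G), ⟨z, z.2, rfl⟩⟩).toAdd) := by
    intro z z' h
    have h1 : s.π ⟨((z : ↥A) : G), ⟨z, z.2, rfl⟩⟩ = s.π ⟨((z' : ↥A) : G), ⟨z', z'.2, rfl⟩⟩ := h
    have h2 : s.π (⟨((z : ↥A) : G), ⟨z, z.2, rfl⟩⟩ * ⟨((z' : ↥A) : G), ⟨z', z'.2, rfl⟩⟩⁻¹) = 1 := by
      rw [map_mul, map_inv, h1, mul_inv_cancel]
    rw [s.ker, Subgroup.mem_bot] at h2
    apply Subtype.ext
    apply Subtype.ext
    exact mul_inv_eq_one.1 h2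
  exact Finite.of_injective _ hinj

theorem mono_group (u : UI) (G : Type) [Group G] [Group.FG G] (hG : u.Grp G) (hvn : VN G)
    (hmax : MaxN G) (g : G) (hg : g ≠ 1)
    (hmono : ∀ N : Subgroup G, N.Normal → N ≠ ⊥ → g ∈ N) : Finite G := by
  obtain ⟨G₁, h1, h2, m, c, h3⟩ := hvn
  have hfg₁ : Group.FG ↥G₁ := Subgroup.fg_of_index_ne_zero G₁
  set A : Subgroup G := Lw G₁ m G₁ with hA
  have hAn : A.Normal := by rw [hA]; infer_instance
  have hAnil : Group.IsNilpotent ↥A := nil_of_Lw A c h3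
  have hcf : Finite (Subgroup.center ↥A) :=
    center_finite hmax A G₁ hAnil m le_rfl g hg hmono
  -- `A` is finite
  have hAmap : (Lw (⊤ : Subgroup ↥G₁) m ⊤).map G₁.subtype = A := E_map_mk G₁ m
  let e : ↥(Lw (⊤ : Subgroup ↥G₁) m ⊤) ≃* ↥A :=
    ((Lw (⊤ : Subgroup ↥G₁) m ⊤).equivMapOfInjective G₁.subtype G₁.subtype_injective).trans
      (MulEquiv.subgroupCongr hAmap)
  have hnil' : Group.IsNilpotent ↥(Lw (⊤ : Subgroup ↥G₁) m ⊤) :=
    Group.nilpotent_of_mulEquiv e.symm
  have hfin' : Finite (Subgroup.center ↥(Lw (⊤ : Subgroup ↥G₁) m ⊤)) :=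
    Finite.of_equiv _ (Subgroup.centerCongr e.symm).toEquiv
  have hAfin' := fin_of_center u ↥G₁ (hG.subgroup G₁) m hnil' hfin'
  have hAfin : Finite ↥A := Finite.of_equiv _ e.toEquiv
  -- the centraliser of `A` in `G₁`
  let C₂ : Subgroup G := (MulAut.conjNormal (H := A) : G →* MulAut ↥A).ker
  have hMA : Finite (MulAut ↥A) := inferInstance
  have hC₂ : C₂.FiniteIndex := Subgroup.finiteIndex_ker _
  let C : Subgroup G := G₁ ⊓ C₂
  have hCn : C.Normal := inferInstance
  have hCfi : C.FiniteIndex := inferInstance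
  have hC0 : Lw C (m + 1) C = ⊥ := by
    rw [Lw_succ, eq_bot_iff]
    have h4 : Lw C m C ≤ A := Lw_mono inf_le_left inf_le_left m
    refine (Subgroup.commutator_mono h4 (inf_le_right : C ≤ C₂)).trans ?_
    rw [← eq_bot_iff, Subgroup.commutator_eq_bot_iff_le_centralizer]
    intro a ha
    rw [Subgroup.mem_centralizer_iff]
    intro x hx
    have h5 : (MulAut.conjNormal (H := A) x) ⟨a, ha⟩ = ⟨a, ha⟩ := by
      have h6 : MulAut.conjNormal (H := A) x = 1 := hx
      rw [h6]; rfl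
    have h7 := congrArg Subtype.val h5
    rw [MulAut.conjNormal_apply] at h7
    calc x * a = x * a * x⁻¹ * x := by group
      _ = a * x := by rw [h7]
  have hCnil : Group.IsNilpotent ↥C := nil_of_Lw C (m + 1) hC0
  have hCfg : Group.FG ↥C := Subgroup.fg_of_index_ne_zero C
  have hcf2 : Finite (Subgroup.center ↥C) :=
    center_finite hmax C C hCnil 0 le_rfl g hg hmono
  have hCfin : Finite ↥C := fin_nil ↥C (Nat.card (Subgroup.center ↥C)) Nat.card_pos (fun z hz => by
    have := pow_card_eq_one' (x := (⟨z, hz⟩ : Subgroup.center ↥C))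
    exact congrArg Subtype.val this)
  have hGC : Finite (G ⧸ C) := Subgroup.finite_quotient_of_finiteIndex
  exact Finite.of_equiv _ (Subgroup.groupEquivQuotientProdSubgroup (s := C)).symm

/-- **finitely generated soluble groups with a universal identity are residually finite.** -/
theorem rf_of_UI (u : UI) (d : ℕ) (G : Type) [Group G] [Group.FG G] (hG : u.Grp G)
    (hd : derivedSeries G d = ⊥) (g : G) (hg : g ≠ 1) :
    ∃ N : Subgroup G, N.Normal ∧ N.FiniteIndex ∧ g ∉ N := by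
  have hmax : MaxN G := (U_main u d G hG hd).2
  obtain ⟨N, ⟨hN, hgN⟩, hNmax⟩ := hmax.exists_max (fun N => N.Normal ∧ g ∉ N) (fun N h => h.1)
    ⟨⊥, inferInstance, by rw [Subgroup.mem_bot]; exact hg⟩
  refine ⟨N, hN, ?_, hgN⟩
  let f : G →* G ⧸ N := QuotientGroup.mk' N
  have hf : Function.Surjective f := QuotientGroup.mk'_surjective N
  have hG' : u.Grp (G ⧸ N) := hG.of_surjective f hf
  have hfg : Group.FG (G ⧸ N) := QuotientGroup.fg _
  have hd' : derivedSeries (G ⧸ N) d = ⊥ := by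
    rw [← map_derivedSeries_eq hf d, hd, Subgroup.map_bot]
  obtain ⟨hvn, hmax'⟩ := U_main u d (G ⧸ N) hG' hd'
  have hfin : Finite (G ⧸ N) := by
    refine mono_group u (G ⧸ N) hG' hvn hmax' (f g) ?_ ?_
    · intro h
      exact hgN ((QuotientGroup.eq_one_iff g).1 h)
    · intro M hM hM0
      by_contra hcon
      have h1 : M.comap f = N := by
        apply hNmax
        · exact ⟨hM.comap f, hcon⟩
        · intro x hx
          rw [Subgroup.mem_comap]
          have : f x = 1 := (QuotientGroup.eq_one_iff x).2 hx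
          rw [this]
          exact M.one_mem
      apply hM0
      rw [eq_bot_iff]
      intro x hx
      obtain ⟨x, rfl⟩ := hf x
      have h2 : x ∈ M.comap f := hx
      rw [h1] at h2
      exact Subgroup.mem_bot.2 ((QuotientGroup.eq_one_iff x).2 h2)
  exact Subgroup.finiteIndex_of_finite_quotient

end Pool.Agent.T2H17.RFV
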